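import Pool.Agent.Helper46.NB.Stmts

/-!
Project NB, row MG: exponential moments for predictable sparse differences.
-/

set_option autoImplicit false

namespace Pool.Agent.Helper28.NB

open Finset

/-- variance is minimal at the mean -/
theorem sum_sq_mean {A : Type} [Fintype A] [Nonempty A] (g : A → ℝ) (x : ℝ) :
    ∑ a, (g a - (∑ a', g a') / (Fintype.card A : ℝ)) ^ 2 ≤ ∑ a, (g a - x) ^ 2 := by
  set m : ℝ := (∑ a', g a') / (Fintype.card A : ℝ) with hm
  have hc : (0 : ℝ) < (Fintype.card A : ℝ) := by exact_mod_cast Fintype.card_pos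
  have hs : ∑ a, g a = m * (Fintype.card A : ℝ) := by rw [hm]; field_simp
  have h1 : ∑ a, (g a - x) ^ 2 = ∑ a, (g a - m) ^ 2 + (Fintype.card A : ℝ) * (m - x) ^ 2 := by
    have e : ∀ a, (g a - x) ^ 2 = (g a - m) ^ 2 + (2 * (m - x)) * g a + (x ^ 2 - m ^ 2) := by
      intro a; ring
    simp_rw [e]
    rw [Finset.sum_add_distrib, Finset.sum_add_distrib, ← Finset.mul_sum, hs, Finset.sum_const,
      Finset.card_univ, nsmul_eq_mul]
    ring
  rw [h1]
  have : 0 ≤ (Fintype.card A : ℝ) * (m - x) ^ 2 := by positivity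
  linarith

/-- one coordinate -/
theorem one_step {A : Type} [Fintype A] [Nonempty A] (g : A → ℝ) (R : Finset A) (b lam : ℝ)
    (_hb : 0 < b) (hl : 0 ≤ lam) (hlb : lam * b ≤ 1)
    (h1 : ∀ a a', |g a - g a'| ≤ b) (h2 : ∀ a a', a ∉ R → a' ∉ R → g a = g a') :
    ∑ a, Real.exp (lam * (g a - (∑ a', g a') / (Fintype.card A : ℝ))) ≤
      Real.exp (lam ^ 2 * b ^ 2 * (#R : ℝ) / (Fintype.card A : ℝ)) * (Fintype.card A : ℝ) := by
  classical
  set m : ℝ := (∑ a', g a') / (Fintype.card A : ℝ) with hm
  have hc : (0 : ℝ) < (Fintype.card A : ℝ) := by exact_mod_cast Fintype.card_pos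
  have hs : ∑ a, g a = m * (Fintype.card A : ℝ) := by rw [hm]; field_simp
  have hdev : ∀ a, |g a - m| ≤ b := by
    intro a
    have e1 : g a - m = (∑ a', (g a - g a')) / (Fintype.card A : ℝ) := by
      rw [Finset.sum_sub_distrib, hs, Finset.sum_const, Finset.card_univ, nsmul_eq_mul]
      field_simp
    rw [e1, abs_div, abs_of_pos hc, div_le_iff₀ hc]
    calc |∑ a', (g a - g a')| ≤ ∑ a', |g a - g a'| := Finset.abs_sum_le_sum_abs _ _
      _ ≤ ∑ _a' : A, b := Finset.sum_le_sum fun a' _ => h1 a a'
      _ = b * (Fintype.card A : ℝ) := by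
        rw [Finset.sum_const, Finset.card_univ, nsmul_eq_mul, mul_comm]
  have hexp : ∀ a, Real.exp (lam * (g a - m)) ≤ 1 + lam * (g a - m) + lam ^ 2 * (g a - m) ^ 2 := by
    intro a
    have hx : |lam * (g a - m)| ≤ 1 := by
      rw [abs_mul, abs_of_nonneg hl]
      calc lam * |g a - m| ≤ lam * b := mul_le_mul_of_nonneg_left (hdev a) hl
        _ ≤ 1 := hlb
    have := Real.abs_exp_sub_one_sub_id_le hx
    have h3 := (abs_le.mp this).2
    have e : (lam * (g a - m)) ^ 2 = lam ^ 2 * (g a - m) ^ 2 := by ring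
    rw [e] at h3
    linarith
  have hvar : ∑ a, (g a - m) ^ 2 ≤ b ^ 2 * (#R : ℝ) := by
    by_cases hR : ∃ a0, a0 ∉ R
    · obtain ⟨a0, ha0⟩ := hR
      refine (sum_sq_mean g (g a0)).trans ?_
      have : ∀ a, (g a - g a0) ^ 2 ≤ if a ∈ R then b ^ 2 else 0 := by
        intro a
        split_ifs with h
        · exact sq_le_sq' (by linarith [(abs_le.mp (h1 a a0)).1]) ((abs_le.mp (h1 a a0)).2)
        · rw [h2 a a0 h ha0]; simp
      refine (Finset.sum_le_sum fun a _ => this a).trans ?_
      rw [← Finset.sum_filter, Finset.sum_const, nsmul_eq_mul]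
      have : (univ.filter fun a => a ∈ R) = R := by ext; simp
      rw [this, mul_comm]
    · push Not at hR
      have hRu : R = univ := by ext a; simp [hR a]
      rw [hRu, Finset.card_univ]
      calc ∑ a, (g a - m) ^ 2 ≤ ∑ _a : A, b ^ 2 := by
            refine Finset.sum_le_sum fun a _ => ?_
            exact sq_le_sq' (by linarith [(abs_le.mp (hdev a)).1]) ((abs_le.mp (hdev a)).2)
        _ = b ^ 2 * (Fintype.card A : ℝ) := by
          rw [Finset.sum_const, Finset.card_univ, nsmul_eq_mul, mul_comm]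
  calc ∑ a, Real.exp (lam * (g a - m))
      ≤ ∑ a, (1 + lam * (g a - m) + lam ^ 2 * (g a - m) ^ 2) :=
        Finset.sum_le_sum fun a _ => hexp a
    _ = (Fintype.card A : ℝ) + lam ^ 2 * ∑ a, (g a - m) ^ 2 := by
        have e0 : ∑ a, lam * (g a - m) = 0 := by
          rw [← Finset.mul_sum, Finset.sum_sub_distrib, hs, Finset.sum_const, Finset.card_univ,
            nsmul_eq_mul]
          ring
        rw [Finset.sum_add_distrib, Finset.sum_add_distrib, e0, ← Finset.mul_sum,
          Finset.sum_const, Finset.card_univ, nsmul_eq_mul]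
        ring
    _ ≤ (Fintype.card A : ℝ) + lam ^ 2 * (b ^ 2 * (#R : ℝ)) := by
        gcongr
    _ = (lam ^ 2 * b ^ 2 * (#R : ℝ) / (Fintype.card A : ℝ) + 1) * (Fintype.card A : ℝ) := by
        field_simp
        ring
    _ ≤ _ := by
        apply mul_le_mul_of_nonneg_right _ hc.le
        exact Real.add_one_le_exp _

/-- glue a value at `i0` with values at the other coordinates -/
def glue {I A : Type} [DecidableEq I] (i0 : I) (a : A) (η : {j : I // j ≠ i0} → A) : I → A :=
  fun j => if h : j = i0 then a else η ⟨j, h⟩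

theorem glue_self {I A : Type} [DecidableEq I] (i0 : I) (a : A) (η : {j : I // j ≠ i0} → A) :
    glue i0 a η i0 = a := by simp [glue]

theorem glue_of_ne {I A : Type} [DecidableEq I] (i0 : I) (a : A) (η : {j : I // j ≠ i0} → A)
    {j : I} (h : j ≠ i0) : glue i0 a η j = η ⟨j, h⟩ := by simp [glue, h]

theorem glue_sub {I A : Type} [DecidableEq I] (i0 : I) (a : A) (η : {j : I // j ≠ i0} → A)
    (j : {j : I // j ≠ i0}) : glue i0 a η j = η j := by
  rw [glue_of_ne i0 a η j.2]

theorem glue_update {I A : Type} [DecidableEq I] (i0 : I) (a a' : A)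
    (η : {j : I // j ≠ i0} → A) : Function.update (glue i0 a η) i0 a' = glue i0 a' η := by
  funext j
  by_cases h : j = i0
  · subst h; simp [glue]
  · rw [Function.update_of_ne h, glue_of_ne i0 a η h, glue_of_ne i0 a' η h]

theorem glue_update' {I A : Type} [DecidableEq I] (i0 : I) (a x : A)
    (η : {j : I // j ≠ i0} → A) (i : {j : I // j ≠ i0}) :
    glue i0 a (Function.update η i x) = Function.update (glue i0 a η) (i : I) x := by
  funext j
  by_cases h : j = i0
  · subst h
    rw [glue_self, Function.update_of_ne (fun h => i.2 h.symm), glue_self]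
  · rw [glue_of_ne i0 a _ h]
    by_cases h' : j = i
    · subst h'
      simp
    · rw [Function.update_of_ne h', glue_of_ne i0 a η h, Function.update_of_ne]
      intro hh
      exact h' (congrArg Subtype.val hh)

theorem sum_glue {I A : Type} [Fintype I] [DecidableEq I] [Fintype A] (i0 : I)
    (F : (I → A) → ℝ) :
    ∑ ω, F ω = ∑ a : A, ∑ η : ({j : I // j ≠ i0} → A), F (glue i0 a η) := by
  rw [← Fintype.sum_prod_type' (fun a η => F (glue i0 a η))]
  refine Fintype.sum_equiv (Equiv.funSplitAt i0 A) _ _ ?_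
  intro ω
  congr 1
  funext j
  by_cases h : j = i0
  · subst h
    simp [glue]
  · simp [glue, h]

/-- exponential moment bound -/
theorem key (A : Type) [Fintype A] [Nonempty A] (b lam : ℝ) (hb : 0 < b) (hl : 0 ≤ lam)
    (hlb : lam * b ≤ 1) (n : ℕ) :
    ∀ (I : Type) [Fintype I] [DecidableEq I] (f : (I → A) → ℝ) (rk : I → ℕ)
      (R : I → (I → A) → Finset A), Fintype.card I = n →
      (∀ i ω ω', (∀ j, rk j < rk i → ω j = ω' j) → R i ω = R i ω') →
      (∀ i ω a, |f (Function.update ω i a) - f ω| ≤ b) →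
      (∀ i ω a, ω i ∉ R i ω → a ∉ R i ω → f (Function.update ω i a) = f ω) →
      ∑ ω, Real.exp (lam * (f ω - (∑ ω', f ω') / (Fintype.card (I → A) : ℝ)) -
        lam ^ 2 * b ^ 2 * (∑ i, (#(R i ω) : ℝ)) / (Fintype.card A : ℝ)) ≤
        (Fintype.card (I → A) : ℝ) := by
  induction n with
  | zero =>
    intro I _ _ f rk R hI _ _ _
    have : IsEmpty I := Fintype.card_eq_zero_iff.mp hI
    have hu : ∀ ω : I → A, f ω = f (fun i => (IsEmpty.false i).elim) := fun ω =>
      congrArg f (Subsingleton.elim _ _)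
    have hcard : Fintype.card (I → A) = 1 := by
      rw [Fintype.card_eq_one_iff]
      exact ⟨fun i => (IsEmpty.false i).elim, fun _ => Subsingleton.elim _ _⟩
    have huniq : (univ : Finset (I → A)) = {fun i => (IsEmpty.false i).elim} := by
      ext x
      simp only [mem_univ, mem_singleton, true_iff]
      exact Subsingleton.elim _ _
    rw [hcard, huniq]
    simp
  | succ n ih =>
    intro I _ _ f rk R hI hR hf1 hf2
    have : Nonempty I := Fintype.card_pos_iff.mp (by omega)
    obtain ⟨i0, -, hi0⟩ := Finset.exists_min_image (univ : Finset I) rk univ_nonempty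
    have hcA : (0 : ℝ) < (Fintype.card A : ℝ) := by exact_mod_cast Fintype.card_pos
    set J := {j : I // j ≠ i0} with hJ
    have hcJ : Fintype.card J = n := by
      have h1 := Fintype.card_subtype_compl (fun j : I => j = i0)
      simp only [Fintype.card_subtype_eq] at h1
      have h2 : Fintype.card J = Fintype.card {x : I // ¬ x = i0} := rfl
      omega
    have hcB : (0 : ℝ) < (Fintype.card (J → A) : ℝ) := by exact_mod_cast Fintype.card_pos
    have hcI : (Fintype.card (I → A) : ℝ) = (Fintype.card A : ℝ) * (Fintype.card (J → A) : ℝ) := by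
      have := Fintype.card_congr (Equiv.funSplitAt i0 A)
      rw [Fintype.card_prod] at this
      exact_mod_cast this
    -- the relevant set of `i0` is constant
    obtain ⟨ω0⟩ : Nonempty (I → A) := inferInstance
    set R0 := R i0 ω0 with hR0
    have hR0' : ∀ ω, R i0 ω = R0 := fun ω => hR i0 ω ω0 fun j hj =>
      absurd hj (not_lt.mpr (hi0 j (mem_univ j)))
    -- conditional averages
    set g : A → ℝ := fun a => (∑ η : (J → A), f (glue i0 a η)) / (Fintype.card (J → A) : ℝ) with hg
    have hmean : (∑ ω', f ω') / (Fintype.card (I → A) : ℝ) =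
        (∑ a, g a) / (Fintype.card A : ℝ) := by
      rw [sum_glue i0 f, hcI, hg]
      simp only
      rw [← Finset.sum_div]
      field_simp
      rfl
    have hg1 : ∀ a a', |g a - g a'| ≤ b := by
      intro a a'
      rw [hg]
      simp only
      rw [← sub_div, abs_div, abs_of_pos hcB, div_le_iff₀ hcB, ← Finset.sum_sub_distrib]
      calc |∑ η : (J → A), (f (glue i0 a η) - f (glue i0 a' η))|
          ≤ ∑ η : (J → A), |f (glue i0 a η) - f (glue i0 a' η)| := Finset.abs_sum_le_sum_abs _ _
        _ ≤ ∑ _η : (J → A), b := by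
            refine Finset.sum_le_sum fun η _ => ?_
            have := hf1 i0 (glue i0 a' η) a
            rwa [glue_update] at this
        _ = b * (Fintype.card (J → A) : ℝ) := by
            rw [Finset.sum_const, Finset.card_univ, nsmul_eq_mul, mul_comm]
    have hg2 : ∀ a a', a ∉ R0 → a' ∉ R0 → g a = g a' := by
      intro a a' ha ha'
      rw [hg]
      simp only
      congr 1
      refine Finset.sum_congr rfl fun η _ => ?_
      have := hf2 i0 (glue i0 a' η) a (by rw [hR0', glue_self]; exact ha') (by rw [hR0']; exact ha)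
      rwa [glue_update] at this
    have hone := one_step g R0 b lam hb hl hlb hg1 hg2
    rw [hmean, sum_glue i0]
    set m : ℝ := (∑ a, g a) / (Fintype.card A : ℝ) with hm
    have hinner : ∀ a, ∑ η : (J → A), Real.exp (lam * (f (glue i0 a η) - m) -
        lam ^ 2 * b ^ 2 * (∑ i, (#(R i (glue i0 a η)) : ℝ)) / (Fintype.card A : ℝ)) ≤
        Real.exp (lam * (g a - m)) *
          Real.exp (-(lam ^ 2 * b ^ 2 * (#R0 : ℝ) / (Fintype.card A : ℝ))) *
          (Fintype.card (J → A) : ℝ) := by
      intro a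
      have hih := ih J (fun η => f (glue i0 a η)) (fun i => rk i)
        (fun i η => R i (glue i0 a η)) hcJ
        (by
          intro i η η' h
          refine hR i _ _ fun j hj => ?_
          by_cases hji : j = i0
          · subst hji; rw [glue_self, glue_self]
          · rw [glue_of_ne i0 a η hji, glue_of_ne i0 a η' hji]
            exact h ⟨j, hji⟩ hj)
        (by
          intro i η x
          rw [glue_update']
          exact hf1 i _ x)
        (by
          intro i η x h h'
          rw [glue_update']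
          refine hf2 i _ x ?_ h'
          rw [glue_sub]
          exact h)
      have hsplit : ∀ η : (J → A), Real.exp (lam * (f (glue i0 a η) - m) -
          lam ^ 2 * b ^ 2 * (∑ i, (#(R i (glue i0 a η)) : ℝ)) / (Fintype.card A : ℝ)) =
          Real.exp (lam * (g a - m)) *
          Real.exp (-(lam ^ 2 * b ^ 2 * (#R0 : ℝ) / (Fintype.card A : ℝ))) *
          Real.exp (lam * (f (glue i0 a η) -
            (∑ η' : (J → A), f (glue i0 a η')) / (Fintype.card (J → A) : ℝ)) -
            lam ^ 2 * b ^ 2 * (∑ i : J, (#(R i (glue i0 a η)) : ℝ)) / (Fintype.card A : ℝ)) := by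
        intro η
        rw [← Real.exp_add, ← Real.exp_add]
        congr 1
        rw [Fintype.sum_eq_add_sum_subtype_ne (fun i => (#(R i (glue i0 a η)) : ℝ)) i0, hR0']
        have : (∑ η' : (J → A), f (glue i0 a η')) / (Fintype.card (J → A) : ℝ) = g a := rfl
        rw [this]
        ring
      rw [Finset.sum_congr rfl fun η _ => hsplit η, ← Finset.mul_sum]
      exact mul_le_mul_of_nonneg_left hih (by positivity)
    calc _ ≤ ∑ a, Real.exp (lam * (g a - m)) *
          Real.exp (-(lam ^ 2 * b ^ 2 * (#R0 : ℝ) / (Fintype.card A : ℝ))) *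
          (Fintype.card (J → A) : ℝ) := Finset.sum_le_sum fun a _ => hinner a
      _ = (∑ a, Real.exp (lam * (g a - m))) *
          Real.exp (-(lam ^ 2 * b ^ 2 * (#R0 : ℝ) / (Fintype.card A : ℝ))) *
          (Fintype.card (J → A) : ℝ) := by
          rw [Finset.sum_mul, Finset.sum_mul]
      _ ≤ (Real.exp (lam ^ 2 * b ^ 2 * (#R0 : ℝ) / (Fintype.card A : ℝ)) *
            (Fintype.card A : ℝ)) *
          Real.exp (-(lam ^ 2 * b ^ 2 * (#R0 : ℝ) / (Fintype.card A : ℝ))) *
          (Fintype.card (J → A) : ℝ) := by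
          gcongr
      _ = (Fintype.card (I → A) : ℝ) := by
          rw [hcI]
          have : Real.exp (lam ^ 2 * b ^ 2 * (#R0 : ℝ) / (Fintype.card A : ℝ)) *
              Real.exp (-(lam ^ 2 * b ^ 2 * (#R0 : ℝ) / (Fintype.card A : ℝ))) = 1 := by
            rw [← Real.exp_add]; simp
          linear_combination (Fintype.card A : ℝ) * (Fintype.card (J → A) : ℝ) * this

open Pool.Agent.Helper46.NB in
theorem st_MG : ST_MG := by
  classical
  intro I A _ _ _ f rk R b Vv hb hV hR hf1 hf2 hsum s hs hsb
  have hcA : (0 : ℝ) < (Fintype.card A : ℝ) := by exact_mod_cast Fintype.card_pos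
  set lam : ℝ := s / (2 * b ^ 2 * Vv) with hlam
  have hl : 0 ≤ lam := by positivity
  have hlb : lam * b ≤ 1 := by
    rw [hlam, div_mul_eq_mul_div, div_le_one (by positivity)]
    nlinarith [mul_le_mul_of_nonneg_right hsb hb.le, mul_pos (pow_pos hb 2) hV]
  have h := key A b lam hb hl hlb _ I f rk R rfl hR hf1 hf2
  set m : ℝ := (∑ ω', f ω') / (Fintype.card (I → A) : ℝ) with hm
  set S := univ.filter fun ω : I → A => m + s ≤ f ω with hS
  have hlow : (#S : ℝ) * Real.exp (s ^ 2 / (4 * b ^ 2 * Vv)) ≤
      ∑ ω, Real.exp (lam * (f ω - m) -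
        lam ^ 2 * b ^ 2 * (∑ i, (#(R i ω) : ℝ)) / (Fintype.card A : ℝ)) := by
    calc (#S : ℝ) * Real.exp (s ^ 2 / (4 * b ^ 2 * Vv))
        = ∑ _ω ∈ S, Real.exp (s ^ 2 / (4 * b ^ 2 * Vv)) := by
          rw [Finset.sum_const, nsmul_eq_mul]
      _ ≤ ∑ ω ∈ S, Real.exp (lam * (f ω - m) -
          lam ^ 2 * b ^ 2 * (∑ i, (#(R i ω) : ℝ)) / (Fintype.card A : ℝ)) := by
          refine Finset.sum_le_sum fun ω hω => ?_
          apply Real.exp_le_exp.mpr
          have hω' : m + s ≤ f ω := by
            have := (Finset.mem_filter.mp hω).2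
            exact this
          have h1 : lam * s ≤ lam * (f ω - m) := mul_le_mul_of_nonneg_left (by linarith) hl
          have h2 : lam ^ 2 * b ^ 2 * (∑ i, (#(R i ω) : ℝ)) / (Fintype.card A : ℝ) ≤
              lam ^ 2 * b ^ 2 * Vv := by
            rw [div_le_iff₀ hcA, mul_assoc (lam ^ 2 * b ^ 2)]
            exact mul_le_mul_of_nonneg_left (hsum ω) (by positivity)
          have h3 : lam * s - lam ^ 2 * b ^ 2 * Vv = s ^ 2 / (4 * b ^ 2 * Vv) := by
            rw [hlam]
            field_simp
            ring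
          linarith
      _ ≤ _ := Finset.sum_le_sum_of_subset_of_nonneg (Finset.subset_univ _)
          fun _ _ _ => (Real.exp_pos _).le
  have hfin : (#S : ℝ) * Real.exp (s ^ 2 / (4 * b ^ 2 * Vv)) ≤ (Fintype.card (I → A) : ℝ) :=
    hlow.trans (by convert h)
  have : (#S : ℝ) ≤ Real.exp (-(s ^ 2 / (4 * b ^ 2 * Vv))) * (Fintype.card (I → A) : ℝ) := by
    rw [Real.exp_neg, inv_mul_eq_div, le_div_iff₀ (Real.exp_pos _)]
    exact hfin
  convert this

end Pool.Agent.Helper28.NB

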